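import Pool.Agent.Helper14_HSL.HSC
import Pool.Agent.ANP.Defs

/-!
# Row WGN: the mean of `Im G_bb` over independent Gaussian potentials

If the variance of the potential at `b` is at least `r₀` then the mean of `Im G_bb` is at most
`(π / (2 r₀))^(1/2)`, whatever the other variances (also `0`) and the means are.
-/

set_option autoImplicit false

open MeasureTheory ProbabilityTheory

open scoped BigOperators Matrix ComplexConjugate ENNReal NNReal

noncomputable section

namespace Pool.Agent.HSL67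

open Pool.Agent.ANR Pool.Agent.HSL14
open Pool.Agent.ANP (gm)

/-- the Cauchy distribution -/
theorem lint_cauchy {b : ℝ} (hb : 0 < b) (a : ℝ) :
    ∫⁻ s : ℝ, ENNReal.ofReal (b / ((s + a) ^ 2 + b ^ 2)) = ENNReal.ofReal Real.pi := by
  have h0 : ∀ s : ℝ, ENNReal.ofReal (b / ((s + a) ^ 2 + b ^ 2)) =
      (fun t : ℝ => ENNReal.ofReal (b / (t ^ 2 + b ^ 2))) (s + a) := fun _ => rfl
  have h1 : ∀ t : ℝ, b / (t ^ 2 + b ^ 2) = b⁻¹ * (1 + (b⁻¹ * t) ^ 2)⁻¹ := by
    intro t
    have : 0 < t ^ 2 + b ^ 2 := by positivity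
    field_simp
    ring
  have hint : Integrable fun t : ℝ => b⁻¹ * (1 + (b⁻¹ * t) ^ 2)⁻¹ :=
    (integrable_inv_one_add_sq.comp_mul_left' (inv_ne_zero hb.ne')).const_mul _
  have hval : ∫ t : ℝ, b⁻¹ * (1 + (b⁻¹ * t) ^ 2)⁻¹ = Real.pi := by
    rw [integral_const_mul, Measure.integral_comp_mul_left (fun t : ℝ => (1 + t ^ 2)⁻¹) b⁻¹,
      integral_univ_inv_one_add_sq, inv_inv, abs_of_pos hb, smul_eq_mul, ← mul_assoc,
      inv_mul_cancel₀ hb.ne', one_mul]
  rw [lintegral_congr h0, lintegral_add_right_eq_self (μ := volume)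
    (fun t : ℝ => ENNReal.ofReal (b / (t ^ 2 + b ^ 2))) a]
  simp only [h1]
  rw [← ofReal_integral_eq_lintegral_ofReal hint (ae_of_all _ fun s => by positivity), hval]

/-- a Gaussian mean is at most the Lebesgue integral times the maximum of the density -/
theorem lint_gauss_le (m : ℝ) {r : ℝ≥0} {r₀ : ℝ} (h0 : 0 < r₀) (hr : r₀ ≤ r) (f : ℝ → ℝ≥0∞) :
    ∫⁻ s, f s ∂(gaussianReal m r) ≤ ENNReal.ofReal ((Real.sqrt (2 * Real.pi * r₀))⁻¹) *
      ∫⁻ s, f s := by
  have hr0 : r ≠ 0 := by
    rintro rfl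
    simp at hr
    linarith
  rw [gaussianReal_of_var_ne_zero m hr0]
  have hpdf : ∀ s, gaussianPDF m r s ≤ ENNReal.ofReal ((Real.sqrt (2 * Real.pi * r₀))⁻¹) := by
    intro s
    rw [gaussianPDF]
    refine ENNReal.ofReal_le_ofReal ?_
    rw [gaussianPDFReal]
    have h1 : Real.exp (-(s - m) ^ 2 / (2 * r)) ≤ 1 := by
      rw [Real.exp_le_one_iff]
      refine div_nonpos_of_nonpos_of_nonneg (by nlinarith [sq_nonneg (s - m)]) (by positivity)
    have h2 : (Real.sqrt (2 * Real.pi * r))⁻¹ ≤ (Real.sqrt (2 * Real.pi * r₀))⁻¹ := by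
      refine inv_anti₀ (Real.sqrt_pos.2 (by positivity)) (Real.sqrt_le_sqrt ?_)
      exact mul_le_mul_of_nonneg_left hr (by positivity)
    calc (Real.sqrt (2 * Real.pi * r))⁻¹ * Real.exp (-(s - m) ^ 2 / (2 * r))
        ≤ (Real.sqrt (2 * Real.pi * r₀))⁻¹ * 1 :=
          mul_le_mul h2 h1 (Real.exp_pos _).le (by positivity)
      _ = _ := mul_one _
  calc ∫⁻ s, f s ∂(volume.withDensity (gaussianPDF m r))
      ≤ ∫⁻ s, (gaussianPDF m r * f) s := lintegral_withDensity_le_lintegral_mul _ (measurable_gaussianPDF m r) f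
    _ ≤ ∫⁻ s, ENNReal.ofReal ((Real.sqrt (2 * Real.pi * r₀))⁻¹) * f s :=
        lintegral_mono fun s => mul_le_mul_left (hpdf s) (f s)
    _ = _ := lintegral_const_mul' _ _ ENNReal.ofReal_ne_top

variable {X : Type} [Fintype X] [DecidableEq X]

/-- `H` plus a potential -/
def addV (H : Matrix X X ℝ) (V : X → ℝ) : Matrix X X ℝ := H + Matrix.diagonal V

omit [Fintype X] in
theorem addV_net {H : Matrix X X ℝ} {κ : X → ℝ} (h : Net H κ) (V : X → ℝ) :
    Net (addV H V) κ := by
  refine ⟨fun x y => ?_, h.pos⟩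
  rw [addV, Matrix.add_apply, Matrix.add_apply, h.sym x y]
  congr 1
  by_cases hxy : x = y
  · subst hxy; rfl
  · rw [Matrix.diagonal_apply_ne _ hxy, Matrix.diagonal_apply_ne _ (Ne.symm hxy)]

omit [Fintype X] in
theorem mat_addV_cont (H : Matrix X X ℝ) (κ : X → ℝ) :
    Continuous fun V : X → ℝ => mat (addV H V) κ := by
  refine continuous_matrix fun x y => ?_
  simp only [mat, addV, Matrix.sub_apply, Matrix.map_apply, Matrix.add_apply]
  refine Continuous.sub ?_ continuous_const
  refine Complex.continuous_ofReal.comp (continuous_const.add ?_)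
  by_cases hxy : x = y
  · subst hxy
    simpa using continuous_apply x
  · simpa [Matrix.diagonal_apply_ne _ hxy] using continuous_const

/-- the entries of the resolvent depend continuously on the potential -/
theorem gr_cont {H : Matrix X X ℝ} {κ : X → ℝ} (h : Net H κ) (x y : X) :
    Continuous fun V : X → ℝ => Gr (addV H V) κ x y := by
  have h1 := mat_addV_cont H κ
  have h2 : ∀ V, (mat (addV H V) κ).det ≠ 0 := fun V =>
    isUnit_iff_ne_zero.1 (mat_unit (addV_net h V))
  have h3 : ∀ V, Gr (addV H V) κ x y =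
      (mat (addV H V) κ).det⁻¹ * (mat (addV H V) κ).adjugate x y := by
    intro V
    rw [gr_eq, Matrix.inv_def, Matrix.smul_apply, smul_eq_mul, Ring.inverse_eq_inv']
  simp only [h3]
  exact (h1.matrix_det.inv₀ h2).mul (h1.matrix_adjugate.matrix_elem x y)

/-- the dependence on the potential at one site -/
theorem one_site {H : Matrix X X ℝ} {κ : X → ℝ} (h : Net H κ) (V : X → ℝ) (b : X) :
    ∃ α β : ℝ, 0 < β ∧ ∀ s : ℝ, (Gr (addV H (Function.update V b s)) κ b b).im =
      β / ((s + α) ^ 2 + β ^ 2) := by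
  set V₀ := Function.update V b 0 with hV₀
  have hn := addV_net h V₀
  have hu := mat_unit hn
  set M := mat (addV H V₀) κ with hM
  set g : ℂ := Gr (addV H V₀) κ b b with hg
  have hgim : 0 < g.im := by
    have h1 := ward_diag hn.sym hu b
    rw [← hg] at h1
    rw [← h1]
    refine Finset.sum_pos' (fun y _ => mul_nonneg (h.pos y).le (by positivity)) ?_
    by_contra hcon
    push Not at hcon
    have h2 : ∀ y, Gr (addV H V₀) κ b y = 0 := by
      intro y
      have := hcon y (Finset.mem_univ y)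
      by_contra h3
      have h4 : 0 < ‖Gr (addV H V₀) κ b y‖ := norm_pos_iff.2 h3
      have h5 := h.pos y
      have : 0 < κ y * ‖Gr (addV H V₀) κ b y‖ ^ 2 := by positivity
      linarith
    have h3 : (Gr (addV H V₀) κ * M) b b = 1 := by
      rw [gr_eq, hM, Matrix.nonsing_inv_mul _ hu, Matrix.one_apply_eq]
    rw [Matrix.mul_apply] at h3
    simp [h2] at h3
  have hg0 : g ≠ 0 := by
    intro h0; rw [h0] at hgim; simp at hgim
  have hns : 0 < Complex.normSq g := Complex.normSq_pos.2 hg0
  refine ⟨g.re / Complex.normSq g, g.im / Complex.normSq g, by positivity, fun s => ?_⟩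
  have hup : Function.update V b s = Function.update V₀ b s := by
    rw [hV₀, Function.update_idem]
  have hns' := addV_net h (Function.update V b s)
  have hus := mat_unit hns'
  set gs : ℂ := Gr (addV H (Function.update V b s)) κ b b with hgs
  -- the matrix is `M + s e_b e_b^T`
  have hmat : mat (addV H (Function.update V b s)) κ = M + Matrix.diagonal
      (fun x => if x = b then (s : ℂ) else 0) := by
    ext x y
    rw [hM, mat, mat, Matrix.add_apply, Matrix.sub_apply, Matrix.sub_apply, Matrix.map_apply,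
      Matrix.map_apply, addV, addV, Matrix.add_apply, Matrix.add_apply]
    by_cases hxy : x = y
    · subst hxy
      simp only [Matrix.diagonal_apply_eq]
      by_cases hxb : x = b
      · subst hxb
        simp only [Function.update_self, hV₀, if_true]
        push_cast
        ring
      · simp only [Function.update_of_ne hxb, hV₀, if_neg hxb]
        ring
    · simp only [Matrix.diagonal_apply_ne _ hxy]
      ring
  have hid : Gr (addV H V₀) κ = Gr (addV H (Function.update V b s)) κ +
      Gr (addV H V₀) κ * Matrix.diagonal (fun x => if x = b then (s : ℂ) else 0) *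
        Gr (addV H (Function.update V b s)) κ := by
    have e1 : Gr (addV H V₀) κ * mat (addV H (Function.update V b s)) κ =
        1 + Gr (addV H V₀) κ * Matrix.diagonal (fun x => if x = b then (s : ℂ) else 0) := by
      rw [hmat, Matrix.mul_add, gr_eq, ← hM, Matrix.nonsing_inv_mul _ hu]
    have e2 : mat (addV H (Function.update V b s)) κ * Gr (addV H (Function.update V b s)) κ = 1 := by
      rw [gr_eq, Matrix.mul_nonsing_inv _ hus]
    calc Gr (addV H V₀) κ = Gr (addV H V₀) κ * (mat (addV H (Function.update V b s)) κ *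
          Gr (addV H (Function.update V b s)) κ) := by rw [e2, Matrix.mul_one]
      _ = (Gr (addV H V₀) κ * mat (addV H (Function.update V b s)) κ) *
          Gr (addV H (Function.update V b s)) κ := by rw [Matrix.mul_assoc]
      _ = _ := by rw [e1, Matrix.add_mul, Matrix.one_mul]
  have h1 : g = gs + g * s * gs := by
    have := congrFun (congrFun hid b) b
    rw [← hg, Matrix.add_apply, Matrix.mul_apply] at this
    refine this.trans ?_
    congr 1
    rw [Finset.sum_eq_single b]
    · rw [Matrix.mul_diagonal, if_pos rfl]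
    · intro y _ hy
      rw [Matrix.mul_diagonal, if_neg hy, mul_zero, zero_mul]
    · intro hb; exact absurd (Finset.mem_univ b) hb
  have h2 : gs * (1 + s * g) = g := by
    linear_combination -h1
  have h3 : (1 + (s : ℂ) * g) ≠ 0 := by
    intro h0
    rw [h0, mul_zero] at h2
    exact hg0 h2.symm
  have h4 : gs = g / (1 + s * g) := by
    rw [eq_div_iff h3, h2]
  rw [h4, Complex.div_im]
  have h5 : Complex.normSq (1 + (s : ℂ) * g) =
      Complex.normSq g * ((s + g.re / Complex.normSq g) ^ 2 +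
        (g.im / Complex.normSq g) ^ 2) := by
    have h6 : Complex.normSq g = g.re ^ 2 + g.im ^ 2 := by
      rw [Complex.normSq_apply]; ring
    have h7 : Complex.normSq (1 + (s : ℂ) * g) = (1 + s * g.re) ^ 2 + (s * g.im) ^ 2 := by
      rw [Complex.normSq_apply]
      simp only [Complex.add_re, Complex.add_im, Complex.one_re, Complex.one_im,
        Complex.re_ofReal_mul, Complex.im_ofReal_mul]
      ring
    rw [h7]
    field_simp
    rw [h6]
    ring
  have h8 : (1 + (s : ℂ) * g).re = 1 + s * g.re := by simp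
  have h9 : (1 + (s : ℂ) * g).im = s * g.im := by simp
  have h10 : 0 < (s + g.re / Complex.normSq g) ^ 2 + (g.im / Complex.normSq g) ^ 2 := by
    have : 0 < g.im / Complex.normSq g := by positivity
    positivity
  rw [h5, h8, h9]
  field_simp
  ring

/-- WGN: the mean of `Im G_bb` -/
theorem wgn {H : Matrix X X ℝ} {κ : X → ℝ} (h : Net H κ) (a : X → ℝ) (r : X → ℝ≥0) (b : X)
    {r₀ : ℝ} (h0 : 0 < r₀) (hr : r₀ ≤ r b) :
    ∫⁻ V, ENNReal.ofReal (Gr (addV H V) κ b b).im ∂(gm a r) ≤
      ENNReal.ofReal (Real.sqrt (Real.pi / (2 * r₀))) := by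
  set F : (∀ _ : X, ℝ) → ℝ≥0∞ := fun V => ENNReal.ofReal (Gr (addV H V) κ b b).im with hF
  have hmeas : Measurable F :=
    (Complex.continuous_im.comp (gr_cont h b b)).measurable.ennreal_ofReal
  set μ : ∀ _ : X, Measure ℝ := fun x => gaussianReal (a x) (r x) with hμ
  have hone : ∀ V : X → ℝ, ∫⁻ s, ENNReal.ofReal (Gr (addV H (Function.update V b s)) κ b b).im
      ∂(μ b) ≤ ENNReal.ofReal (Real.sqrt (Real.pi / (2 * r₀))) := by
    intro V
    obtain ⟨α, β, hβ, hv⟩ := one_site h V b
    simp only [hv]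
    refine (lint_gauss_le (a b) h0 hr _).trans ?_
    rw [lint_cauchy hβ α, ← ENNReal.ofReal_mul (by positivity)]
    refine ENNReal.ofReal_le_ofReal (le_of_eq ?_)
    have hp := Real.pi_pos
    have e1 : Real.sqrt (2 * Real.pi * r₀) ≠ 0 := (Real.sqrt_pos.2 (by positivity)).ne'
    rw [inv_mul_eq_div, div_eq_iff e1, ← Real.sqrt_mul (by positivity)]
    have e2 : Real.pi / (2 * r₀) * (2 * Real.pi * r₀) = Real.pi ^ 2 := by
      field_simp
    rw [e2, Real.sqrt_sq hp.le]
  have h1 : ∫⁻ V, F V ∂(gm a r) = (∫⋯∫⁻_Finset.univ, F ∂μ) (fun _ => 0) := by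
    rw [gm, lintegral_eq_lmarginal_univ (μ := μ) (fun _ => (0 : ℝ))]
  have h2 := congrFun (lmarginal_erase' (μ := μ) F hmeas (Finset.mem_univ b))
    (fun _ => (0 : ℝ))
  refine (h1.trans h2).le.trans ?_
  calc (∫⋯∫⁻_Finset.univ.erase b, (fun x => ∫⁻ xᵢ, F (Function.update x b xᵢ) ∂μ b) ∂μ)
          (fun _ => 0)
      ≤ (∫⋯∫⁻_Finset.univ.erase b, (fun _ =>
          ENNReal.ofReal (Real.sqrt (Real.pi / (2 * r₀)))) ∂μ) (fun _ => 0) :=
        lmarginal_mono (fun V => hone V) _
    _ = ENNReal.ofReal (Real.sqrt (Real.pi / (2 * r₀))) := by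
        rw [lmarginal, lintegral_const, measure_univ, mul_one]

end Pool.Agent.HSL67
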